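import Mathlib

namespace Pool.Agent.H.MP_b91a69_an

open Filter Topology Finset

def Fam {ι : Type*} (S : Finset ι) (u v : ℝ) (s t : ι → ℝ) : Prop :=
  (∀ i ∈ S, u ≤ s i ∧ s i ≤ t i ∧ t i ≤ v) ∧ ∀ i ∈ S, ∀ j ∈ S, i ≠ j → t i ≤ s j ∨ t j ≤ s i

lemma Fam.mono {ι : Type*} {S : Finset ι} {u v u' v' : ℝ} {s t : ι → ℝ} (h : Fam S u v s t)
    (hu : u' ≤ u) (hv : v ≤ v') : Fam S u' v' s t :=
  ⟨fun i hi => ⟨hu.trans (h.1 i hi).1, (h.1 i hi).2.1, (h.1 i hi).2.2.trans hv⟩, h.2⟩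

lemma Fam.comp {ι κ : Type*} {S : Finset ι} {T : Finset κ} {u v : ℝ} {s t : ι → ℝ}
    (h : Fam S u v s t) (e : κ → ι) (he : ∀ i ∈ T, e i ∈ S)
    (hi : ∀ i ∈ T, ∀ j ∈ T, e i = e j → i = j) : Fam T u v (s ∘ e) (t ∘ e) :=
  ⟨fun i h' => h.1 _ (he i h'), fun i h1 j h2 h3 =>
    h.2 _ (he i h1) _ (he j h2) fun h4 => h3 (hi i h1 j h2 h4)⟩

lemma Fam.last {ι : Type*} [DecidableEq ι] {S : Finset ι} {u v : ℝ} {s t : ι → ℝ} {k : ι}
    (h : Fam (insert k S) u v s t) (hk : k ∉ S) (hm : ∀ i ∈ S, s i + t i ≤ s k + t k) :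
    Fam S u (s k) s t := by
  refine ⟨fun i hi => ?_, fun i hi j hj => h.2 i (mem_insert_of_mem hi) j (mem_insert_of_mem hj)⟩
  have h1 := h.1 i (mem_insert_of_mem hi)
  have h2 := h.1 k (mem_insert_self _ _)
  refine ⟨h1.1, h1.2.1, ?_⟩
  rcases h.2 i (mem_insert_of_mem hi) k (mem_insert_self _ _) (ne_of_mem_of_not_mem hi hk) with
    h3 | h3 <;> linarith [hm i hi, h1.2.1, h2.2.1]

variable (f g : ℝ → ℝ)

def sm (f : ℝ → ℝ) (g : ℕ → ℝ) (S : Finset ℕ) (s t : ℕ → ℝ) : ℝ :=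
  ∑ i ∈ S, |f (t i) - f (s i)| * g i

lemma Fam.merge {S T : Finset ℕ} {u v : ℝ} {s t s' t' : ℕ → ℝ} (h : Fam S u v s t)
    (h' : Fam T u v s' t') (hd : Disjoint S T)
    (hc : ∀ i ∈ S, ∀ j ∈ T, t i ≤ s' j ∨ t' j ≤ s i) (f : ℝ → ℝ) (g : ℕ → ℝ) :
    Fam (S ∪ T) u v (S.piecewise s s') (S.piecewise t t') ∧
    sm f g (S ∪ T) (S.piecewise s s') (S.piecewise t t') = sm f g S s t + sm f g T s' t' := by
  have hT : ∀ i ∈ T, i ∉ S := fun i hi => disjoint_right.1 hd hi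
  refine ⟨⟨fun i hi => ?_, fun i hi j hj hij => ?_⟩, ?_⟩
  · rcases mem_union.1 hi with hi | hi
    · simpa [hi] using h.1 i hi
    · simpa [hT i hi] using h'.1 i hi
  · rcases mem_union.1 hi with hi | hi <;> rcases mem_union.1 hj with hj | hj
    · simpa [hi, hj] using h.2 i hi j hj hij
    · simpa [hi, hT j hj] using hc i hi j hj
    · simpa [hj, hT i hi] using (hc j hj i hi).symm
    · simpa [hT i hi, hT j hj] using h'.2 i hi j hj hij
  · unfold sm
    rw [sum_union hd]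
    congr 1 <;> refine sum_congr rfl fun i hi => ?_
    · simp [hi]
    · simp [hT i hi]

structure Ctx where
  f : ℝ → ℝ
  g : ℕ → ℝ
  a : ℝ
  b : ℝ
  C : ℝ
  hg : ∀ i, 0 < g i
  hC : ∀ S s t, Fam S a b s t → sm f g S s t ≤ C

namespace Ctx
variable (c : Ctx)

def SS (m : ℕ) (u v : ℝ) : Set ℝ :=
  {x | ∃ S s t, (∀ i ∈ S, m ≤ i) ∧ Fam S u v s t ∧ x = sm c.f c.g S s t}

noncomputable def W (m : ℕ) (u v : ℝ) : ℝ := sSup (c.SS m u v)
noncomputable def nu (u v : ℝ) : ℝ := ⨅ m, c.W m u v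

lemma zero_mem (m : ℕ) (u v : ℝ) : 0 ∈ c.SS m u v :=
  ⟨∅, 0, 0, by simp, ⟨by simp, by simp⟩, by simp [sm]⟩

variable {u v w : ℝ}

lemma bdd (m : ℕ) (hu : c.a ≤ u) (hv : v ≤ c.b) : c.C ∈ upperBounds (c.SS m u v) := by
  rintro _ ⟨S, s, t, -, h, rfl⟩
  exact c.hC S s t (h.mono hu hv)

lemma le_W {m : ℕ} (hu : c.a ≤ u) (hv : v ≤ c.b) {S : Finset ℕ} {s t : ℕ → ℝ}
    (hm : ∀ i ∈ S, m ≤ i) (h : Fam S u v s t) : sm c.f c.g S s t ≤ c.W m u v :=
  le_csSup ⟨_, c.bdd m hu hv⟩ ⟨S, s, t, hm, h, rfl⟩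

lemma W_nn (m : ℕ) (hu : c.a ≤ u) (hv : v ≤ c.b) : 0 ≤ c.W m u v :=
  le_csSup ⟨_, c.bdd m hu hv⟩ (c.zero_mem m u v)

lemma W_le {m : ℕ} {x : ℝ} (h : ∀ S s t, (∀ i ∈ S, m ≤ i) → Fam S u v s t → sm c.f c.g S s t ≤ x) :
    c.W m u v ≤ x :=
  csSup_le ⟨_, c.zero_mem m u v⟩ (by rintro _ ⟨S, s, t, h1, h2, rfl⟩; exact h S s t h1 h2)

lemma W_anti (hu : c.a ≤ u) (hv : v ≤ c.b) {m m' : ℕ} (h : m ≤ m') : c.W m' u v ≤ c.W m u v :=
  c.W_le fun _ _ _ h1 h2 => c.le_W hu hv (fun i hi => h.trans (h1 i hi)) h2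

lemma nu_le (m : ℕ) (hu : c.a ≤ u) (hv : v ≤ c.b) : c.nu u v ≤ c.W m u v :=
  ciInf_le ⟨0, by rintro _ ⟨m, rfl⟩; exact c.W_nn m hu hv⟩ m

lemma nu_nn (hu : c.a ≤ u) (hv : v ≤ c.b) : 0 ≤ c.nu u v := le_ciInf fun m => c.W_nn m hu hv

lemma ex (hu : c.a ≤ u) (hv : v ≤ c.b) {η : ℝ} (hη : 0 < η) (M : ℕ) :
    ∃ S s t, (∀ i ∈ S, M ≤ i) ∧ Fam S u v s t ∧ c.nu u v - η < sm c.f c.g S s t := by
  obtain ⟨_, ⟨S, s, t, h1, h2, rfl⟩, h⟩ := exists_lt_of_lt_csSup ⟨_, c.zero_mem M u v⟩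
    (show c.nu u v - η < c.W M u v by linarith [c.nu_le M hu hv])
  exact ⟨S, s, t, h1, h2, h⟩

lemma W_sub (m : ℕ) (hu : c.a ≤ u) (huv : u ≤ v) (hvw : v ≤ w) (hw : w ≤ c.b) :
    c.W m u w ≤ c.W m u v + c.W m v w := by
  refine c.W_le fun S s t h1 h2 => le_trans ?_ (add_le_add
    (c.le_W hu (hvw.trans hw) (s := fun i => min (s i) v) (t := fun i => min (t i) v) h1 ⟨?_, ?_⟩)
    (c.le_W (hu.trans huv) hw (s := fun i => max (s i) v) (t := fun i => max (t i) v) h1 ⟨?_, ?_⟩))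
  · unfold sm
    rw [← sum_add_distrib]
    refine sum_le_sum fun i hi => ?_
    rw [← add_mul]
    refine mul_le_mul_of_nonneg_right ?_ (c.hg i).le
    have := (h2.1 i hi).2.1
    rcases le_total (t i) v with h | h
    · simp [h, this.trans h]
    · rcases le_total (s i) v with h' | h'
      · simp only [h, h', min_eq_right, min_eq_left, max_eq_right, max_eq_left]
        rw [add_comm]; exact abs_sub_le _ _ _
      · simp [h, h']
  · exact fun i hi => ⟨le_min (h2.1 i hi).1 huv, min_le_min_right _ (h2.1 i hi).2.1, min_le_right _ _⟩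
  · exact fun i hi j hj h => (h2.2 i hi j hj h).imp (min_le_min_right _) (min_le_min_right _)
  · exact fun i hi => ⟨le_max_right _ _, max_le_max_right _ (h2.1 i hi).2.1,
      max_le (h2.1 i hi).2.2 hvw⟩
  · exact fun i hi j hj h => (h2.2 i hi j hj h).imp (max_le_max_right _) (max_le_max_right _)

lemma nu_sub (hu : c.a ≤ u) (huv : u ≤ v) (hvw : v ≤ w) (hw : w ≤ c.b) :
    c.nu u w ≤ c.nu u v + c.nu v w := by
  refine le_ciInf_add_ciInf fun m m' => (c.nu_le (max m m') hu hw).trans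
    ((c.W_sub _ hu huv hvw hw).trans (add_le_add ?_ ?_))
  · exact c.W_anti hu (hvw.trans hw) (le_max_left _ _)
  · exact c.W_anti (hu.trans huv) hw (le_max_right _ _)

lemma disj {S T : Finset ℕ} {M : ℕ} (h : ∀ i ∈ T, max M (S.sup id + 1) ≤ i) : Disjoint S T :=
  disjoint_left.2 fun i hi hi' => by
    have h1 := h i hi'
    have h2 : i ≤ S.sup id := le_sup (f := id) hi
    omega

lemma nu_sup (hu : c.a ≤ u) (huv : u ≤ v) (hvw : v ≤ w) (hw : w ≤ c.b) :
    c.nu u v + c.nu v w ≤ c.nu u w := by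
  refine le_ciInf fun m => le_of_forall_pos_le_add fun η hη => ?_
  obtain ⟨S, s, t, h1, h2, h3⟩ := c.ex hu (hvw.trans hw) (half_pos hη) m
  obtain ⟨T, s', t', h4, h5, h6⟩ := c.ex (hu.trans huv) hw (half_pos hη) (max m (S.sup id + 1))
  obtain ⟨h7, h8⟩ := (h2.mono le_rfl hvw).merge (h5.mono huv le_rfl) (disj h4)
    (fun i hi j hj => Or.inl ((h2.1 i hi).2.2.trans (h5.1 j hj).1)) c.f c.g
  have := c.le_W (m := m) hu hw (fun i hi => (mem_union.1 hi).elim (h1 i)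
    fun hi => (le_max_left _ _).trans (h4 i hi)) h7
  linarith

lemma nu_sum {ι : Type*} (S : Finset ι) (s t : ι → ℝ) (hu : c.a ≤ u) :
    ∀ {w}, u ≤ w → w ≤ c.b → Fam S u w s t → ∑ i ∈ S, c.nu (s i) (t i) ≤ c.nu u w := by
  classical
  induction S using induction_on_max_value (fun i => s i + t i) with
  | empty => intro w _ hw _; simpa using c.nu_nn hu hw
  | insert k S hk hm ih =>
    intro w _ hw h
    obtain ⟨h1, h2, h3⟩ := h.1 k (mem_insert_self _ _)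
    rw [sum_insert hk]
    linarith [ih h1 (h2.trans (h3.trans hw)) (h.last hk hm), c.nu_sup hu h1 h2 (h3.trans hw),
      c.nu_sup hu (h1.trans h2) h3 hw, c.nu_nn (hu.trans (h1.trans h2)) hw]

lemma fill {ι : Type*} (S : Finset ι) (s t : ι → ℝ) (hu : c.a ≤ u) (M : ℕ) :
    ∀ {w η}, u ≤ w → w ≤ c.b → 0 < η → Fam S u w s t → ∃ T s' t', (∀ i ∈ T, M ≤ i) ∧
      Fam T u w s' t' ∧ (∀ i ∈ S, ∀ j ∈ T, t i ≤ s' j ∨ t' j ≤ s i) ∧
      c.nu u w - ∑ i ∈ S, c.nu (s i) (t i) - η < sm c.f c.g T s' t' := by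
  classical
  induction S using induction_on_max_value (fun i => s i + t i) with
  | empty =>
    intro w η _ hw hη _
    obtain ⟨T, s', t', h1, h2, h3⟩ := c.ex hu hw hη M
    exact ⟨T, s', t', h1, h2, by simp, by simpa using h3⟩
  | insert k S hk hm ih =>
    intro w η _ hw hη h
    obtain ⟨h1, h2, h3⟩ := h.1 k (mem_insert_self _ _)
    have hl := h.last hk hm
    obtain ⟨T, s', t', a1, a2, a3, a4⟩ := ih h1 (h2.trans (h3.trans hw)) (half_pos hη) hl
    obtain ⟨T', s'', t'', b1, b2, b3⟩ := c.ex (hu.trans (h1.trans h2)) hw (half_pos hη)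
      (max M (T.sup id + 1))
    have hd := disj b1
    obtain ⟨h7, h8⟩ := (a2.mono le_rfl (h2.trans h3)).merge (b2.mono (h1.trans h2) le_rfl) hd
      (fun i hi j hj => Or.inl ((a2.1 i hi).2.2.trans (h2.trans (b2.1 j hj).1))) c.f c.g
    refine ⟨_, _, _, fun i hi => (mem_union.1 hi).elim (a1 i)
      fun hi => (le_max_left _ _).trans (b1 i hi), h7, fun i hi j hj => ?_, ?_⟩
    · rcases mem_union.1 hj with hj | hj
      · simp only [piecewise_eq_of_mem _ _ _ hj]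
        rcases mem_insert.1 hi with rfl | hi
        · exact Or.inr (a2.1 j hj).2.2
        · exact a3 i hi j hj
      · simp only [piecewise_eq_of_notMem _ _ _ (disjoint_right.1 hd hj)]
        rcases mem_insert.1 hi with rfl | hi
        · exact Or.inl (b2.1 j hj).1
        · exact Or.inl ((hl.1 i hi).2.2.trans (h2.trans (b2.1 j hj).1))
    · rw [sum_insert hk, h8]
      linarith [c.nu_sub hu h1 h2 (h3.trans hw), c.nu_sub hu (h1.trans h2) h3 hw]

lemma key (hab : c.a ≤ c.b) {S : Finset ℕ} {s t : ℕ → ℝ} {m : ℕ} (hm : ∀ i ∈ S, m ≤ i)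
    (h : Fam S c.a c.b s t) :
    sm c.f c.g S s t ≤ c.W m c.a c.b - c.nu c.a c.b + ∑ i ∈ S, c.nu (s i) (t i) := by
  refine le_of_forall_pos_le_add fun η hη => ?_
  obtain ⟨T, s', t', a1, a2, a3, a4⟩ := c.fill S s t le_rfl (max m (S.sup id + 1)) hab le_rfl hη h
  obtain ⟨h7, h8⟩ := h.merge a2 (disj a1) a3 c.f c.g
  have := c.le_W (m := m) le_rfl le_rfl (fun i hi => (mem_union.1 hi).elim (hm i)
    fun hi => (le_max_left _ _).trans (a1 i hi)) h7
  linarith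

end Ctx

lemma abel {d z : ℕ → ℝ} (hd : Antitone d) (h0 : ∀ i, 0 ≤ d i) {η : ℝ}
    (h : ∀ q, ∑ j ∈ range q, z j ≤ η) (Q : ℕ) : ∑ j ∈ range Q, d j * z j ≤ d 0 * η := by
  have : ∑ j ∈ range Q, d j * z j ≤ (d 0 - d Q) * η + d Q * ∑ j ∈ range Q, z j := by
    induction Q with
    | zero => simp
    | succ Q ih =>
      have := mul_nonneg (sub_nonneg.2 (hd (Nat.le_succ Q))) (sub_nonneg.2 (h (Q + 1)))
      rw [sum_range_succ] at this ⊢
      rw [sum_range_succ]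
      nlinarith
  nlinarith [mul_le_mul_of_nonneg_left (h Q) (h0 Q)]

lemma blocks {c x : ℕ → ℝ} (hc : Antitone c) (hx : ∀ i, 0 ≤ x i) {K r : ℕ} (hr : r < K) (Q : ℕ) :
    ∑ i ∈ range ((Q + 1) * K), c i * x i ≤ c 0 * ∑ i ∈ range K, x i + ∑ j ∈ range Q,
      c (j * K + r) * (∑ i ∈ range ((j + 2) * K), x i - ∑ i ∈ range ((j + 1) * K), x i) := by
  induction Q with
  | zero =>
    simp only [zero_add, one_mul, range_zero, sum_empty, add_zero, mul_sum]
    exact sum_le_sum fun i _ => mul_le_mul_of_nonneg_right (hc (Nat.zero_le _)) (hx i)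
  | succ Q ih =>
    rw [sum_range_succ, show Q + 1 + 1 = Q + 2 from rfl, show (Q + 2) * K = (Q + 1) * K + K by ring,
      sum_range_add, sum_range_add x, add_sub_cancel_left, ← add_assoc, mul_sum (range K)
      (fun i => x ((Q + 1) * K + i))]
    refine add_le_add ih (sum_le_sum fun i _ => mul_le_mul_of_nonneg_right (hc ?_) (hx _))
    nlinarith

lemma sorted {a b : ℝ} (hab : a ≤ b) (f : ℝ → ℝ) {x : ℕ → ℝ} (hx : Antitone x) {n : ℕ}
    {s t : ℕ → ℝ} (h : Fam (range n) a b s t) : ∃ s' t' : ℕ → ℝ, (∀ S, Fam S a b s' t') ∧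
      (Antitone fun i => |f (t' i) - f (s' i)|) ∧ sm f x (range n) s t ≤ sm f x (range n) s' t' := by
  let A : Fin n → ℝ := fun i => -|f (t i) - f (s i)|
  let σ := Tuple.sort A
  have hσ : Monotone (A ∘ σ) := Tuple.monotone_sort A
  refine ⟨fun i => if h : i < n then s (σ ⟨i, h⟩) else a, fun i => if h : i < n then t (σ ⟨i, h⟩)
    else a, fun S => ⟨fun i _ => ?_, fun i _ j _ hij => ?_⟩, fun i j hij => ?_, ?_⟩
  · simp only
    split_ifs
    · exact h.1 _ (by simp)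
    · exact ⟨le_rfl, le_rfl, hab⟩
  · simp only
    split_ifs with h1 h2 h2
    · exact h.2 _ (by simp) _ (by simp) fun e => hij (by simpa using σ.injective (Fin.ext e))
    · exact Or.inr (h.1 _ (by simp)).1
    · exact Or.inl (h.1 _ (by simp)).1
    · exact Or.inl le_rfl
  · by_cases hj : j < n
    · simp only [dif_pos hj, dif_pos (hij.trans_lt hj)]
      exact neg_le_neg_iff.1 (hσ (show (⟨i, hij.trans_lt hj⟩ : Fin n) ≤ ⟨j, hj⟩ from hij))
    · simp [hj]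
  · unfold sm
    rw [sum_range, sum_range]
    have := (Antitone.monovary (f := fun i => -(A ∘ σ) i) (g := fun i : Fin n => x i) hσ.neg
      fun i j h => hx h).sum_comp_perm_mul_le_sum_mul (σ := σ.symm)
    simpa [A] using this

theorem suff (c : Ctx) (hab : c.a ≤ c.b) (hg : Tendsto (fun n => ∑ i ∈ range n, c.g i) atTop atTop)
    {x : ℕ → ℝ} (hx : Antitone x) (hx0 : Tendsto x atTop (𝓝 0))
    (h : ∀ ε > 0, ∃ K : ℕ, 1 ≤ K ∧ ∀ᶠ n in atTop,
      ∑ i ∈ range (K * n), x i ≤ ε * K * ∑ i ∈ range n, c.g i) {δ : ℝ} (hδ : 0 < δ) :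
    ∀ᶠ m in atTop, ∀ n s t, Fam (range n) c.a c.b s t →
      sm c.f (fun i => x (i + m)) (range n) s t ≤ δ := by
  have hxn : ∀ i, 0 ≤ x i := fun i => hx.le_of_tendsto hx0 i
  have hC : c.nu c.a c.b ≤ c.C := (c.nu_le 0 le_rfl le_rfl).trans
    (c.W_le fun S s t _ h => c.hC S s t h)
  have hν := c.nu_nn le_rfl le_rfl
  have hC0 : 0 ≤ c.C := hν.trans hC
  obtain ⟨K, hK, h⟩ := h (δ / (4 * (c.C + 1))) (by positivity)
  have hK' : (0 : ℝ) < K := by exact_mod_cast hK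
  set ε := δ / (4 * (c.C + 1)) with hε
  have hε0 : 0 < ε := by positivity
  obtain ⟨m₀, hm₀⟩ := exists_lt_of_ciInf_lt
    (show c.nu c.a c.b < c.nu c.a c.b + 1 / K from lt_add_of_pos_right _ (by positivity))
  have hm' := (c.W_anti le_rfl le_rfl (Nat.le_succ m₀)).trans_lt hm₀
  obtain ⟨n₀, hn₀⟩ := eventually_atTop.1 (h.and (hg.eventually_ge_atTop
    (2 * ∑ i ∈ range (m₀ + 1), c.g i)))
  have g0 := c.hg 0
  have t1 := hx0.const_mul (c.C / c.g 0 * ((n₀ + 1) * K))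
  rw [mul_zero] at t1
  filter_upwards [t1.eventually (gt_mem_nhds (half_pos hδ))] with m hm n s t hF
  have hxm : Antitone fun i => x (i + m) := fun i j h => hx (by omega)
  obtain ⟨s', t', f1, f2, f3⟩ := sorted hab c.f hxm hF
  refine f3.trans ?_
  set d : ℕ → ℝ := fun i => |c.f (t' i) - c.f (s' i)|
  have d0 : ∀ i, 0 ≤ d i := fun i => abs_nonneg _
  have d1 : ∀ i, d i ≤ c.C / c.g 0 := fun i => by
    have := c.hC {0} _ _ ((f1 {i}).comp (T := {0}) (fun _ => i) (by simp) (by simp))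
    rw [le_div_iff₀ g0]; simpa [sm] using this
  obtain ⟨r, hr, hr'⟩ : ∃ r ∈ range K, ∑ j ∈ range n, c.nu (s' (j * K + r)) (t' (j * K + r)) ≤
      c.nu c.a c.b / K := by
    refine exists_le_of_sum_le (nonempty_range_iff.2 (by omega)) ?_
    rw [← sum_product', sum_const, card_range, nsmul_eq_mul, mul_div_cancel₀ _ hK'.ne']
    refine c.nu_sum _ _ _ le_rfl hab le_rfl ((f1 (range (n * K + K))).comp
      (fun p : ℕ × ℕ => p.2 * K + p.1) (fun p hp => ?_) fun p hp q hq e => ?_)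
    · simp only [mem_product, mem_range] at hp ⊢
      have := Nat.mul_le_mul_right K hp.2.le
      omega
    · simp only [mem_product, mem_range] at hp hq
      have e1 := congrArg (· % K) e
      have e2 := congrArg (· / K) e
      simp only [Nat.mul_add_mod_self_right, Nat.mod_eq_of_lt, hp.1, hq.1] at e1
      rw [e1, Nat.add_right_cancel_iff] at e
      exact Prod.ext e1 (Nat.eq_of_mul_eq_mul_right hK e)
  rw [mem_range] at hr
  have k1 := c.key hab (S := Ico (m₀ + 1) (m₀ + 1 + n)) (m := m₀ + 1) (fun i hi => (mem_Ico.1 hi).1)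
    ((f1 (range (n * K + K))).comp (fun i => (i - (m₀ + 1)) * K + r) (fun i hi => by
      have := Nat.mul_le_mul_right K (show i - (m₀ + 1) ≤ n by simp at hi; omega)
      simp; omega) fun i hi j hj e => by
      have := Nat.eq_of_mul_eq_mul_right hK (Nat.add_right_cancel e)
      simp at hi hj; omega)
  simp only [sm, sum_Ico_eq_sum_range, Function.comp, Nat.add_sub_cancel_left] at k1
  have k2 := blocks (x := fun i => x (i + m)) f2 (fun i => hxn _) hr n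
  have Lm : ∀ k : ℕ, ∑ i ∈ range k, x (i + m) ≤ k * x m := fun k => by
    simpa using sum_le_card_nsmul (range k) (fun i => x (i + m)) (x m) fun i _ => hx (by omega)
  have k3 := abel (d := fun j => d (j * K + r)) (z := fun j => (∑ i ∈ range ((j + 2) * K), x (i + m)
    - ∑ i ∈ range ((j + 1) * K), x (i + m)) - 2 * ε * K * c.g (m₀ + 1 + j)) (η := n₀ * K * x m)
    (fun i j h => f2 (by nlinarith)) (fun _ => d0 _) (fun q => by
      rw [sum_sub_distrib, ← mul_sum, sum_range_sub (fun j => ∑ i ∈ range ((j + 1) * K), x (i + m))]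
      have p1 : 0 ≤ ∑ i ∈ range ((0 + 1) * K), x (i + m) := sum_nonneg fun _ _ => hxn _
      have p2 : 0 ≤ ∑ i ∈ range q, c.g (m₀ + 1 + i) := sum_nonneg fun _ _ => (c.hg _).le
      have p3 := hxn m
      by_cases hq : q + 1 ≤ n₀
      · have := Lm ((q + 1) * K)
        have p4 : (((q + 1) * K : ℕ) : ℝ) ≤ n₀ * K := by
          exact_mod_cast Nat.mul_le_mul_right K hq
        have : 0 ≤ 2 * ε * K * ∑ i ∈ range q, c.g (m₀ + 1 + i) := by positivity
        nlinarith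
      · obtain ⟨q1, q2⟩ := hn₀ (q + 1) (by omega)
        have q3 : ∑ i ∈ range ((q + 1) * K), x (i + m) ≤ ∑ i ∈ range (K * (q + 1)), x i := by
          rw [mul_comm]; exact sum_le_sum fun i _ => hx (by omega)
        have q4 : ∑ i ∈ range (q + 1), c.g i ≤ ∑ i ∈ range (m₀ + 1 + q), c.g i :=
          sum_le_sum_of_subset_of_nonneg (range_mono (by omega)) fun i _ _ => (c.hg i).le
        rw [sum_range_add _ (m₀ + 1) q] at q4
        have : ε * K * ∑ i ∈ range (q + 1), c.g i ≤ 2 * ε * K * ∑ i ∈ range q, c.g (m₀ + 1 + i) := by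
          have := mul_le_mul_of_nonneg_left (show ∑ i ∈ range (q + 1), c.g i ≤
            2 * ∑ i ∈ range q, c.g (m₀ + 1 + i) by linarith) (mul_pos hε0 hK').le
          linarith
        have : 0 ≤ n₀ * K * x m := by positivity
        linarith) n
  have k4 : sm c.f (fun i => x (i + m)) (range n) s' t' ≤
      ∑ i ∈ range ((n + 1) * K), d i * x (i + m) :=
    sum_le_sum_of_subset_of_nonneg (range_mono (by nlinarith)) fun i _ _ => mul_nonneg (d0 _) (hxn _)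
  simp only [mul_sub (d _) _ (2 * ε * K * _), sum_sub_distrib, mul_left_comm (d _) (2 * ε * K),
    ← mul_sum] at k3
  have k5 : 2 * ε * K * ∑ j ∈ range n, d (j * K + r) * c.g (m₀ + 1 + j) ≤
      2 * ε * K * ((c.C + 1) / K) := by
    gcongr
    have : c.nu c.a c.b / K ≤ c.C / K := by gcongr
    rw [add_div]; linarith
  have k6 : 2 * ε * K * ((c.C + 1) / K) = δ / 2 := by rw [hε]; field_simp; ring
  have k7 : d 0 * ∑ i ∈ range K, x (i + m) ≤ c.C / c.g 0 * (K * x m) :=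
    mul_le_mul (d1 _) (Lm K) (sum_nonneg fun _ _ => hxn _) (by positivity)
  have k8 : d (0 * K + r) * (n₀ * K * x m) ≤ c.C / c.g 0 * (n₀ * K * x m) :=
    mul_le_mul_of_nonneg_right (d1 _) (by have := hxn m; positivity)
  nlinarith

end Pool.Agent.H.MP_b91a69_an
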