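import Pool.Agent.H.MP_b91a69_an.A

namespace Pool.Agent.H.MP_b91a69_an

open Filter Topology Finset Real

lemma len_sum {ι : Type*} (S : Finset ι) (s t : ι → ℝ) {u : ℝ} :
    ∀ {w}, u ≤ w → Fam S u w s t → ∑ i ∈ S, (t i - s i) ≤ w - u := by
  classical
  induction S using induction_on_max_value (fun i => s i + t i) with
  | empty => intro w h _; simpa using h
  | insert k S hk hm ih =>
    intro w _ h
    obtain ⟨h1, h2, h3⟩ := h.1 k (mem_insert_self _ _)
    rw [sum_insert hk]
    linarith [ih h1 (h.last hk hm)]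

lemma wave {h M : ℕ → ℝ} (h0 : ∀ k, 0 < h k) (M0 : ∀ k, 0 < M k) (hh : ∀ k, h (k + 1) ≤ h k / 8)
    (hq : ∀ k, 8 * (h k * M k) ≤ h (k + 1) * M (k + 1)) (y z : ℝ) (k : ℕ) :
    ∃ A B, (∑' j, h j * cos (M j * y)) - ∑' j, h j * cos (M j * z) = A + B ∧
      |A| ≤ (∑ j ∈ range k, h j * M j) * |y - z| ∧ |B| ≤ 4 * h k ∧
      |B - h k * (cos (M k * y) - cos (M k * z))| ≤ h k / 2 := by
  have g : ∀ k j, h (j + k) ≤ h k * (1 / 2) ^ j := fun k j => by
    induction j with
    | zero => simp
    | succ j ih => rw [add_right_comm, pow_succ]; linarith [hh (j + k), h0 (j + k)]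
  have b : ∀ j y z, |h j * (cos (M j * y) - cos (M j * z))| ≤ 2 * h j := fun j y z => by
    rw [abs_mul, abs_of_pos (h0 j), mul_comm]
    refine mul_le_mul_of_nonneg_right ((abs_sub _ _).trans ?_) (h0 j).le
    linarith [abs_cos_le_one (M j * y), abs_cos_le_one (M j * z)]
  have s0 : Summable h := Summable.of_nonneg_of_le (fun j => (h0 j).le) (g 0)
    (summable_geometric_two.mul_left _)
  have s1 : ∀ y, Summable fun j => h j * cos (M j * y) := fun y =>
    s0.of_norm_bounded fun j => by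
      rw [norm_mul, Real.norm_of_nonneg (h0 j).le]
      exact mul_le_of_le_one_right (h0 j).le (abs_cos_le_one _)
  have s2 : Summable fun j => h j * (cos (M j * y) - cos (M j * z)) := by
    simpa only [mul_sub] using (s1 y).sub (s1 z)
  have tl : ∀ k, |∑' j, h (j + k) * (cos (M (j + k) * y) - cos (M (j + k) * z))| ≤ 4 * h k := by
    intro k
    have := tsum_of_norm_bounded (f := fun j => h (j + k) * (cos (M (j + k) * y) -
      cos (M (j + k) * z))) (hasSum_geometric_two.mul_left (2 * h k)) fun j =>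
        (b _ _ _).trans (by linarith [g k j])
    rw [Real.norm_eq_abs] at this; linarith
  refine ⟨_, _, by
    rw [← (s1 y).tsum_sub (s1 z)]; simp only [← mul_sub]
    exact (s2.sum_add_tsum_nat_add k).symm, ?_, tl k, ?_⟩
  · rw [sum_mul]
    refine (abs_sum_le_sum_abs _ _).trans (sum_le_sum fun j _ => ?_)
    rw [abs_mul, abs_of_pos (h0 j), mul_assoc]
    refine mul_le_mul_of_nonneg_left ((abs_cos_sub_cos_le _ _).trans_eq ?_) (h0 j).le
    rw [← mul_sub, abs_mul, abs_of_pos (M0 j)]
  · rw [((summable_nat_add_iff k).2 s2).tsum_eq_zero_add, zero_add, add_sub_cancel_left]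
    simp only [add_right_comm _ 1 k, add_assoc]
    linarith [tl (k + 1), hh k]

theorem nec {a b : ℝ} (hab : a < b) {g x : ℕ → ℝ} (hg : Antitone g) (g0 : ∀ i, 0 < g i)
    (hG : Tendsto (fun n => ∑ i ∈ range n, g i) atTop atTop) (g1 : Tendsto g atTop (𝓝 0))
    (x0 : ∀ i, 0 < x i) {ε : ℝ} (hε : 0 < ε) (H : ∀ K : ℕ, 1 ≤ K → ∃ᶠ n in atTop,
      ε * K * ∑ i ∈ range n, g i < ∑ i ∈ range (K * n), x i) :
    ∃ f : ℝ → ℝ, (∀ S s t, Fam S a b s t → sm f g S s t ≤ 36) ∧ ∀ m, ∃ n s t,
      Fam (range n) a b s t ∧ ε / 4 ≤ sm f (fun i => x (i + m)) (range n) s t := by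
  set G : ℕ → ℝ := fun n => ∑ i ∈ range n, g i with hGd
  have G0 : ∀ n, 1 ≤ n → 0 < G n := fun n hn =>
    sum_pos (fun i _ => g0 i) (nonempty_range_iff.2 (by omega))
  have hq : Tendsto (fun n : ℕ => n / G n) atTop atTop := by
    have : Tendsto (fun n : ℕ => (n : ℝ)⁻¹ * G n) atTop (𝓝[>] 0) :=
      tendsto_nhdsWithin_iff.2 ⟨g1.cesaro, (eventually_ge_atTop 1).mono fun n hn =>
        mul_pos (inv_pos.2 (by exact_mod_cast hn)) (G0 n hn)⟩
    exact this.inv_tendsto_nhdsGT_zero.congr fun n => by simp [div_eq_mul_inv, mul_comm]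
  have ex : ∀ k p : ℕ, ∃ n, (ε * (2 ^ k : ℕ) * G n < ∑ i ∈ range (2 ^ k * n), x i ∧ 1 ≤ n) ∧
      4 * G p ≤ G n ∧ 8 * (p / G p) ≤ n / G n := fun k p =>
    (((H _ Nat.one_le_two_pow).and_eventually (eventually_ge_atTop 1)).and_eventually
      ((hG.eventually_ge_atTop _).and (hq.eventually_ge_atTop _))).exists
  choose F hF using ex
  obtain ⟨n, e0, es⟩ : ∃ n : ℕ → ℕ, n 0 = F 0 0 ∧ ∀ k, n (k + 1) = F (k + 1) (n k) :=
    ⟨fun k => Nat.rec (F 0 0) (fun k p => F (k + 1) p) k, rfl, fun _ => rfl⟩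
  have n1 : ∀ k, ε * (2 ^ k : ℕ) * G (n k) < ∑ i ∈ range (2 ^ k * n k), x i ∧ 1 ≤ n k := fun k => by
    cases k with
    | zero => rw [e0]; exact (hF 0 0).1
    | succ k => rw [es]; exact (hF (k + 1) _).1
  have n2 : ∀ k : ℕ, 4 * G (n k) ≤ G (n (k + 1)) ∧
      8 * (((n k : ℕ) : ℝ) / G (n k)) ≤ ((n (k + 1) : ℕ) : ℝ) / G (n (k + 1)) :=
    fun k => by rw [es]; exact (hF (k + 1) (n k)).2
  have Gn : ∀ k, 0 < G (n k) := fun k => G0 _ (n1 k).2
  have nn : ∀ k, (1 : ℝ) ≤ n k := fun k => by exact_mod_cast (n1 k).2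
  have hl : 0 < b - a := sub_pos.2 hab
  let h : ℕ → ℝ := fun k => 1 / (2 ^ k * G (n k))
  let N : ℕ → ℝ := fun k => 2 ^ k * n k
  let M : ℕ → ℝ := fun k => π / (b - a) * N k
  have h0 : ∀ k, 0 < h k := fun k => by have := Gn k; positivity
  have N0 : ∀ k, 0 < N k := fun k => by have := nn k; positivity
  have M0 : ∀ k, 0 < M k := fun k => by have := N0 k; have := pi_pos; positivity
  have hN : ∀ k, h k * N k = n k / G (n k) := fun k => by
    have := Gn k; simp only [h, N]; field_simp
  have hh : ∀ k, h (k + 1) ≤ h k / 8 := fun k => by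
    have := Gn k
    simp only [h]
    rw [div_div, pow_succ]
    refine one_div_le_one_div_of_le (by positivity) ?_
    nlinarith [(n2 k).1, (by positivity : (0 : ℝ) < 2 ^ k)]
  have hM : ∀ k, 8 * (h k * M k) ≤ h (k + 1) * M (k + 1) := fun k => by
    have := mul_le_mul_of_nonneg_left (n2 k).2 (div_pos pi_pos hl).le
    rw [← hN, ← hN] at this
    simp only [M]; linarith
  have sq : ∀ k, ∑ j ∈ range k, h j * M j ≤ h k * M k / 4 := fun k => by
    induction k with
    | zero => have := h0 0; have := M0 0; simp only [range_zero, sum_empty]; positivity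
    | succ k ih => rw [sum_range_succ]; linarith [hM k, mul_pos (h0 k) (M0 k)]
  have W := wave h0 M0 hh hM
  have h2 : ∀ k, h k * G (n k) = (1 / 2) ^ k := fun k => by
    have := Gn k; simp only [h]; rw [one_div_pow]; field_simp
  refine ⟨fun y => ∑' j, h j * cos (M j * (y - a)), fun S s t hS => ?_, fun m => ?_⟩
  · have A : ∀ (κ : ℕ → ℕ) (U : ℕ → ℝ), (∀ i ∈ S, 0 ≤ U i ∧ U i ≤ 1 ∧
        U i ≤ N (κ i) * ((t i - s i) / (b - a))) → ∑ i ∈ S, h (κ i) * U i * g i ≤ 3 := by
      intro κ U hU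
      have a1 : ∑ i ∈ S, (t i - s i) / (b - a) ≤ 1 := by
        rw [← sum_div, div_le_one hl]; exact len_sum S s t hab.le hS
      have a2 : ∑ i ∈ S, ∑ k ∈ range (S.sup κ + 1), (if i < n k then h k * g i else 0) ≤ 2 := by
        rw [sum_comm]
        refine le_trans (sum_le_sum fun k _ => ?_) (sum_geometric_two_le _)
        rw [← h2, ← sum_filter, ← mul_sum]
        refine mul_le_mul_of_nonneg_left (sum_le_sum_of_subset_of_nonneg (fun i hi => ?_)
          fun i _ _ => (g0 i).le) (h0 k).le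
        exact mem_range.2 (mem_filter.1 hi).2
      refine le_trans (sum_le_sum fun i hi => ?_) (sum_add_distrib.trans_le
        ((add_le_add a1 a2).trans (by norm_num)))
      obtain ⟨u0, u1, u2⟩ := hU i hi
      have p : ∀ k, 0 ≤ if i < n k then h k * g i else 0 := fun k => by
        have := h0 k; have := g0 i; split_ifs <;> positivity
      have p1 := single_le_sum (fun k _ => p k) (mem_range.2 (Nat.lt_succ_of_le (le_sup (f := κ) hi)))
      have p2 : 0 ≤ (t i - s i) / (b - a) := div_nonneg (sub_nonneg.2 (hS.1 i hi).2.1) hl.le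
      have p3 := mul_pos (h0 (κ i)) (g0 i)
      by_cases hi' : i < n (κ i)
      · rw [if_pos hi'] at p1
        nlinarith
      · have p4 : n (κ i) * g i ≤ G (n (κ i)) := by
          simpa using card_nsmul_le_sum (range (n (κ i))) g (g i) fun j hj =>
            hg (by simp at hj; omega)
        have p5 : h (κ i) * g i * N (κ i) ≤ 1 := by
          rw [mul_right_comm, hN, div_mul_eq_mul_div, div_le_one (Gn _)]; exact p4
        nlinarith [p (κ i), mul_le_mul_of_nonneg_left u2 p3.le]
    have B : ∀ i, ∃ (k₁ k₂ : ℕ) (U₁ U₂ : ℝ), i ∈ S → (0 ≤ U₁ ∧ U₁ ≤ 1 ∧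
        U₁ ≤ N k₁ * ((t i - s i) / (b - a))) ∧ (0 ≤ U₂ ∧ U₂ ≤ 1 ∧
        U₂ ≤ N k₂ * ((t i - s i) / (b - a))) ∧ |∑' j, h j * cos (M j * (t i - a)) -
          ∑' j, h j * cos (M j * (s i - a))| ≤ 8 * (h k₁ * U₁) + 4 * (h k₂ * U₂) := by
      intro i
      by_cases hi : s i < t i
      swap
      · exact ⟨0, 0, 0, 0, fun h => by simp [le_antisymm (hS.1 i h).2.1 (not_lt.1 hi)]⟩
      have u0 : 0 < (t i - s i) / (b - a) := div_pos (sub_pos.2 hi) hl
      have hex : ∃ k, 1 ≤ N k * ((t i - s i) / (b - a)) := by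
        obtain ⟨k, hk⟩ := pow_unbounded_of_one_lt (1 / ((t i - s i) / (b - a))) one_lt_two
        rw [div_lt_iff₀ u0] at hk
        exact ⟨k, by simp only [N]; nlinarith [nn k]⟩
      obtain ⟨A, B, e, b1, b2, -⟩ := W (t i - a) (s i - a) (Nat.find hex)
      have b3 := Nat.find_spec hex
      have b4 := fun k => Nat.find_min hex (m := k)
      rw [e]
      generalize Nat.find hex = k at *
      have := abs_add_le A B
      cases k with
      | zero =>
        refine ⟨0, 0, 0, 1, fun _ => ⟨⟨le_rfl, zero_le_one, by linarith⟩,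
          ⟨zero_le_one, le_rfl, b3⟩, ?_⟩⟩
        simp only [range_zero, sum_empty, zero_mul] at b1
        linarith
      | succ k =>
        refine ⟨k, k + 1, _, 1, fun _ => ⟨⟨(mul_pos (N0 k) u0).le, (not_le.1 (b4 k (by omega))).le,
          le_rfl⟩, ⟨zero_le_one, le_rfl, b3⟩, ?_⟩⟩
        rw [sum_range_succ, sub_sub_sub_cancel_right, abs_of_pos (sub_pos.2 hi)] at b1
        have e2 : h k * M k * (t i - s i) = π * (h k * (N k * ((t i - s i) / (b - a)))) := by
          simp only [M]; ring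
        have p1 := mul_le_mul_of_nonneg_right (sq k) (sub_pos.2 hi).le
        have p2 := mul_pos (h0 k) (mul_pos (N0 k) u0)
        nlinarith [pi_le_four]
    choose k₁ k₂ U₁ U₂ B using B
    have a1 := A k₁ U₁ fun i hi => (B i hi).1
    have a2 := A k₂ U₂ fun i hi => (B i hi).2.1
    refine le_trans (sum_le_sum fun i hi => mul_le_mul_of_nonneg_right (B i hi).2.2 (g0 i).le) ?_
    simp only [add_mul, sum_add_distrib, mul_assoc (8 : ℝ), mul_assoc (4 : ℝ), ← mul_sum]
    linarith
  · have t : Tendsto h atTop (𝓝 0) := by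
      have := (tendsto_pow_atTop_nhds_zero_of_lt_one (r := (1 / 2 : ℝ)) (by norm_num)
        (by norm_num)).const_mul (h 0)
      rw [mul_zero] at this
      refine squeeze_zero (fun k => (h0 k).le) (fun k => ?_) this
      induction k with
      | zero => simp
      | succ k ih => rw [pow_succ]; linarith [hh k, h0 k]
    have t1 := t.mul_const (∑ i ∈ range m, x i)
    rw [zero_mul] at t1
    obtain ⟨k, hk⟩ := (t1.eventually (gt_mem_nhds (half_pos hε))).exists
    have hd : 0 < (b - a) / N k := div_pos hl (N0 k)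
    refine ⟨2 ^ k * n k, fun j => a + j * ((b - a) / N k), fun j => a + (j + 1) * ((b - a) / N k),
      ⟨fun i hi => ⟨by simp only; nlinarith [(i.cast_nonneg : (0 : ℝ) ≤ i)], by simp only; linarith, ?_⟩,
      fun i _ j _ hij => ?_⟩, ?_⟩
    · have : (i : ℝ) + 1 ≤ N k := by simp only [N]; exact_mod_cast mem_range.1 hi
      have h1 := mul_le_mul_of_nonneg_right this hd.le
      rw [mul_div_cancel₀ _ (N0 k).ne'] at h1
      simp only; linarith
    · rcases hij.lt_or_gt with h | h
      · have : (i : ℝ) + 1 ≤ j := by exact_mod_cast h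
        left; simp only; nlinarith
      · have : (j : ℝ) + 1 ≤ i := by exact_mod_cast h
        right; simp only; nlinarith
    · have e1 : ∀ j : ℕ, h k / 2 ≤ |∑' i, h i * cos (M i * (a + (j + 1) * ((b - a) / N k) - a)) -
          ∑' i, h i * cos (M i * (a + j * ((b - a) / N k) - a))| := fun j => by
        obtain ⟨A, B, e, b1, -, b2⟩ := W (a + (j + 1) * ((b - a) / N k) - a)
          (a + j * ((b - a) / N k) - a) k
        have e2 : ∀ y : ℝ, M k * (a + y * ((b - a) / N k) - a) = y * π := fun y => by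
          have := N0 k; simp only [M]; field_simp; ring
        rw [e2, e2, add_mul, one_mul, cos_add_pi, cos_nat_mul_pi] at b2
        rw [show a + (j + 1) * ((b - a) / N k) - a - (a + j * ((b - a) / N k) - a) = (b - a) / N k
          by ring, abs_of_pos hd] at b1
        have e3 : h k * M k * ((b - a) / N k) = π * h k := by
          have := N0 k; simp only [M]; field_simp
        have p1 := mul_le_mul_of_nonneg_right (sq k) hd.le
        have p2 := mul_le_mul_of_nonneg_right pi_le_four (h0 k).le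
        have b3 : |A| ≤ h k := by linarith
        rw [e]
        rw [abs_le] at b2 b3
        rcases neg_one_pow_eq_or ℝ j with h | h <;> rw [h] at b2
        · exact le_abs.2 (Or.inr (by linarith))
        · exact le_abs.2 (Or.inl (by linarith))
      refine le_trans ?_ (sum_le_sum fun j _ => mul_le_mul_of_nonneg_right (e1 j) (x0 _).le)
      have p1 : ∑ i ∈ range (2 ^ k * n k), x i ≤ ∑ i ∈ range (m + 2 ^ k * n k), x i :=
        sum_le_sum_of_subset_of_nonneg (range_mono (by omega)) fun i _ _ => (x0 i).le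
      rw [sum_range_add] at p1
      have p2 := mul_lt_mul_of_pos_left ((n1 k).1.trans_le p1) (h0 k)
      have e4 : h k * (ε * (2 ^ k : ℕ) * G (n k)) = ε := by
        have := Gn k; simp only [h]; push_cast; field_simp
      simp only [← mul_sum, add_comm _ m]
      linarith

end Pool.Agent.H.MP_b91a69_an
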